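import Mathlib
import Pool.Agent.H1.CM.Targets1
import Pool.Agent.H1.CM.Coef

/-!
# Existence of normal coordinates (module NFX)
-/

namespace Pool.Agent.H1.CM

open IsLocalRing

namespace NFX

lemma near_of_map {A k : Type} [CommRing A] [Field k] (π : A →+* k) (D : Data A)
    (hD : D.Homog) (h : D.map π = std 0) : NearStd π D.a D.c := by
  refine ⟨hD.a, hD.c, ?_, ?_⟩
  · have := congrArg Data.a h
    exact this
  · have := congrArg Data.c h
    exact this

lemma normal_max {A k : Type} [CommRing A] [IsLocalRing A] [Field k] (π : A →+* k) (D : Data A)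
    (h : D.map π = std 0) : NormalMod (maximalIdeal A) D.a D.c := by
  have hker : ∀ x : A, π x = 0 → x ∈ maximalIdeal A := by
    intro x hx
    rw [mem_maximalIdeal, mem_nonunits_iff]
    intro hu
    have := hu.map π
    rw [hx] at this
    exact not_isUnit_zero this
  have ha : ∀ i j l, π (cf D.a i j l)
      = cf (MvPolynomial.X 0 * MvPolynomial.X 1 : MvPolynomial (Fin 3) k) i j l := by
    intro i j l
    rw [← cf_map]
    exact congrArg (fun p => cf p i j l) (congrArg Data.a h)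
  have hc : ∀ i j l, π (cf D.c i j l) = cf (cStd k) i j l := by
    intro i j l
    rw [← cf_map]
    exact congrArg (fun p => cf p i j l) (congrArg Data.c h)
  constructor <;> apply hker <;> simp [ha, hc, cf_aStd, cf_cStd]

end NFX

open NFX in
theorem nfx (h1 : T_IND) (h2 : T_EXQ) (h3 : T_DATA) (h4 : T_NORMX) (h5 : T_MOD) (h6 : T_RELD)
    (h7 : T_BAS) : T_NFX := by
  intro A k C C₀ _ _ _ _ _ _ π ι B ι₀ q₀ ρ hctx h2A hrel₀
  have hloc : IsLocalHom π := IsLocalHom.of_surjective π hctx.surj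
  refine h1 A (fun J => ∃ (q : Quad C) (D : Data A), q.map ρ = q₀ ∧ Coord B q ∧ D.Homog ∧
    q.Rel ι D ∧ D.map π = std 0 ∧ NormalMod J D.a D.c) ?_ ?_
  · obtain ⟨q, hq, hcq⟩ := h2 π ι B ι₀ q₀ ρ hctx
    obtain ⟨D, hDh, hDr, hDm⟩ := h3 π ι B ι₀ q₀ ρ hctx (std 0) (std_hom 0) hrel₀ q hq hcq
    exact ⟨q, D, hq, hcq, hDh, hDr, hDm, normal_max π D hDm⟩
  · rintro J t hJ ht _ hmt ⟨q, D, hq, hcq, hDh, hDr, hDm, hN⟩
    obtain ⟨L, u, s, hL, hu, hs, hs0, hkey⟩ :=
      h4 π hctx.surj h2A J t hJ ht hmt D.a D.c (near_of_map π D hDh hDm) hN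
    obtain ⟨q', lam, hq', hcq', hR⟩ := h5 π ι B ι₀ q₀ ρ hctx q hq hcq L u s hL hu hs hs0
    obtain ⟨D', hDh', hDr', hDm'⟩ :=
      h3 π ι B ι₀ q₀ ρ hctx (std 0) (std_hom 0) hrel₀ q' hq' hcq'
    have hinj : Function.Injective (comb ι q.mon) :=
      (h7 π ι B ι₀ q₀ ρ hctx q hq hcq).bij.injective
    have huu : IsUnit u := by
      apply isUnit_of_map_unit π
      rw [hu]
      exact isUnit_one
    obtain ⟨e1, e2, _⟩ := h6 ι q q' h2A hinj D D' hDh hDh' hDr hDr' L lam u 1 s 0 0 hR hs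
      (MvPolynomial.isHomogeneous_zero _ _ _) (MvPolynomial.isHomogeneous_zero _ _ _)
      huu isUnit_one
    exact ⟨q', D', hq', hcq', hDh', hDr', hDm',
      hkey D'.a D'.c (near_of_map π D' hDh' hDm') e1 e2⟩

end Pool.Agent.H1.CM
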