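import Mathlib
import Pool.Agent.H1.CM.Targets1

/-!
# Two adapted quadruples are related (module REL)
-/

namespace Pool.Agent.H1.CM

namespace REL

/-- A form of degree 0 is a constant. -/
lemma hom_zero {A : Type} [CommRing A] {p : MvPolynomial (Fin 3) A} (h : p.IsHomogeneous 0) :
    ∃ u : A, p = MvPolynomial.C u := by
  rw [← MvPolynomial.totalDegree_zero_iff_isHomogeneous,
    MvPolynomial.totalDegree_eq_zero_iff_eq_C] at h
  exact ⟨_, h⟩

/-- A form of degree 1 is a linear form. -/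
lemma hom_one {A : Type} [CommRing A] {p : MvPolynomial (Fin 3) A} (h : p.IsHomogeneous 1) :
    p = MvPolynomial.C (p.coeff (Finsupp.single 0 1)) * MvPolynomial.X 0
      + MvPolynomial.C (p.coeff (Finsupp.single 1 1)) * MvPolynomial.X 1
      + MvPolynomial.C (p.coeff (Finsupp.single 2 1)) * MvPolynomial.X 2 := by
  classical
  refine MvPolynomial.ext _ _ fun m => ?_
  simp only [MvPolynomial.coeff_add, MvPolynomial.coeff_C_mul, MvPolynomial.coeff_X]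
  by_cases hm : m.degree = 1
  · have hs : m 0 + m 1 + m 2 = 1 := by
      rw [Finsupp.degree_eq_sum, Fin.sum_univ_three] at hm
      exact hm
    have hcase : m = Finsupp.single 0 1 ∨ m = Finsupp.single 1 1 ∨ m = Finsupp.single 2 1 := by
      rcases Nat.lt_or_ge 0 (m 0) with h0 | h0
      · left
        ext i
        fin_cases i <;> simp <;> omega
      · rcases Nat.lt_or_ge 0 (m 1) with h1 | h1
        · right; left
          ext i
          fin_cases i <;> simp <;> omega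
        · right; right
          ext i
          fin_cases i <;> simp <;> omega
    have e01 : (Finsupp.single (0 : Fin 3) 1 : Fin 3 →₀ ℕ) ≠ Finsupp.single 1 1 := by
      intro h; have := DFunLike.congr_fun h 0; simp at this
    have e02 : (Finsupp.single (0 : Fin 3) 1 : Fin 3 →₀ ℕ) ≠ Finsupp.single 2 1 := by
      intro h; have := DFunLike.congr_fun h 0; simp at this
    have e12 : (Finsupp.single (1 : Fin 3) 1 : Fin 3 →₀ ℕ) ≠ Finsupp.single 2 1 := by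
      intro h; have := DFunLike.congr_fun h 1; simp at this
    rcases hcase with rfl | rfl | rfl
    · simp [e01.symm, e02.symm]
    · simp [e01, e12.symm]
    · simp [e02, e12]
  · have h0 : p.coeff m = 0 := h.coeff_eq_zero hm
    have hne : ∀ i : Fin 3, ¬ (Finsupp.single i 1 = m) := by
      intro i hi
      apply hm
      rw [← hi]
      simp
    rw [h0]
    simp [hne]

/-- The value of a linear form. -/
lemma ev_lin {A C : Type} [CommRing A] [CommRing C] (ι : A →+* C) (q : Quad C) (a b c : A) :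
    q.ev ι (MvPolynomial.C a * MvPolynomial.X 0 + MvPolynomial.C b * MvPolynomial.X 1
      + MvPolynomial.C c * MvPolynomial.X 2) = ι a * q.X + ι b * q.Y + ι c := by
  rw [Quad.ev_add, Quad.ev_add, Quad.ev_mul, Quad.ev_mul, Quad.ev_mul, Quad.ev_C, Quad.ev_C,
    Quad.ev_C, Quad.ev_X, Quad.ev_X, Quad.ev_X]
  simp [Quad.vec]

/-- Elements of `H⁰(1)`. -/
lemma form1 (h5 : T_FORM) {A C : Type} [CommRing A] [CommRing C] (ι : A →+* C) (q : Quad C)
    {c : C} (hc : InSpan ι q.mon (regd ((1 : ℕ) : ℤ) ∅) c) :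
    ∃ l : Fin 3 → A, c = ι (l 0) * q.X + ι (l 1) * q.Y + ι (l 2) := by
  obtain ⟨P, hP, rfl⟩ := (h5 ι q 1 c).mp hc
  have hp0 : (P 0).IsHomogeneous 1 := by simpa [dgN] using hP.hom 0 (by simp [dgN])
  have e0 := hom_one hp0
  refine ⟨![(P 0).coeff (Finsupp.single 0 1), (P 0).coeff (Finsupp.single 1 1),
    (P 0).coeff (Finsupp.single 2 1)], ?_⟩
  have e1 : P 1 = 0 := hP.zero 1 (by simp [dgN])
  have e2 : P 2 = 0 := hP.zero 2 (by simp [dgN])
  have e3 : P 3 = 0 := hP.zero 3 (by simp [dgN])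
  have hz : q.ev ι 0 = 0 := by simp [Quad.ev]
  unfold ev4
  rw [Fin.sum_univ_four, e1, e2, e3, hz]
  have := ev_lin ι q ((P 0).coeff (Finsupp.single 0 1)) ((P 0).coeff (Finsupp.single 1 1))
    ((P 0).coeff (Finsupp.single 2 1))
  rw [← e0] at this
  simp [this, Quad.e]

/-- Elements of `H⁰(2)`. -/
lemma form2 (h5 : T_FORM) {A C : Type} [CommRing A] [CommRing C] (ι : A →+* C) (q : Quad C)
    {c : C} (hc : InSpan ι q.mon (regd ((2 : ℕ) : ℤ) ∅) c) :
    ∃ (u : A) (s : MvPolynomial (Fin 3) A), s.IsHomogeneous 2 ∧ c = ι u * q.n + q.ev ι s := by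
  obtain ⟨P, hP, rfl⟩ := (h5 ι q 2 c).mp hc
  have hp0 : (P 0).IsHomogeneous 2 := by simpa [dgN] using hP.hom 0 (by simp [dgN])
  have hp1 : (P 1).IsHomogeneous 0 := by simpa [dgN] using hP.hom 1 (by simp [dgN])
  obtain ⟨u, hu⟩ := hom_zero hp1
  refine ⟨u, P 0, hp0, ?_⟩
  have e2 : P 2 = 0 := hP.zero 2 (by simp [dgN])
  have e3 : P 3 = 0 := hP.zero 3 (by simp [dgN])
  have hz : q.ev ι 0 = 0 := by simp [Quad.ev]
  unfold ev4
  rw [Fin.sum_univ_four, hu, e2, e3, hz, Quad.ev_C]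
  simp only [Quad.e, Matrix.cons_val_zero, Matrix.cons_val_one, Matrix.cons_val]
  ring

/-- Elements of `H⁰(5)`. -/
lemma form5 (h5 : T_FORM) {A C : Type} [CommRing A] [CommRing C] (ι : A →+* C) (q : Quad C)
    {c : C} (hc : InSpan ι q.mon (regd ((5 : ℕ) : ℤ) ∅) c) :
    ∃ (u : A) (r0 r1 : MvPolynomial (Fin 3) A), r0.IsHomogeneous 5 ∧ r1.IsHomogeneous 3 ∧
      c = ι u * q.w + q.ev ι r0 + q.ev ι r1 * q.n := by
  obtain ⟨P, hP, rfl⟩ := (h5 ι q 5 c).mp hc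
  have hp0 : (P 0).IsHomogeneous 5 := by simpa [dgN] using hP.hom 0 (by simp [dgN])
  have hp1 : (P 1).IsHomogeneous 3 := by simpa [dgN] using hP.hom 1 (by simp [dgN])
  have hp2 : (P 2).IsHomogeneous 0 := by simpa [dgN] using hP.hom 2 (by simp [dgN])
  obtain ⟨u, hu⟩ := hom_zero hp2
  refine ⟨u, P 0, P 1, hp0, hp1, ?_⟩
  have e3 : P 3 = 0 := hP.zero 3 (by simp [dgN])
  have hz : q.ev ι 0 = 0 := by simp [Quad.ev]
  unfold ev4
  rw [Fin.sum_univ_four, hu, e3, hz, Quad.ev_C]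
  simp only [Quad.e, Matrix.cons_val_zero, Matrix.cons_val_one, Matrix.cons_val]
  ring

/-- Linear forms in `X, Y, 1` are determined by their values. -/
lemma lin_inj {k C₀ : Type} [CommRing k] [CommRing C₀] (ι₀ : k →+* C₀) (q₀ : Quad C₀)
    (h : Function.Injective (comb ι₀ q₀.mon)) {a b c x y z : k}
    (he : ι₀ a * q₀.X + ι₀ b * q₀.Y + ι₀ c = ι₀ x * q₀.X + ι₀ y * q₀.Y + ι₀ z) :
    a = x ∧ b = y ∧ c = z := by
  have hc : ∀ a b c : k, comb ι₀ q₀.mon (Finsupp.single (1, 0, 0) a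
      + Finsupp.single (0, 1, 0) b + Finsupp.single (0, 0, 0) c)
      = ι₀ a * q₀.X + ι₀ b * q₀.Y + ι₀ c := by
    intro a b c
    rw [comb_add, comb_add, comb_single, comb_single, comb_single, Quad.mon_X, Quad.mon_Y,
      Quad.mon_zero, mul_one]
  rw [← hc, ← hc] at he
  have := h he
  refine ⟨?_, ?_, ?_⟩
  · simpa using DFunLike.congr_fun this (1, 0, 0)
  · simpa using DFunLike.congr_fun this (0, 1, 0)
  · simpa using DFunLike.congr_fun this (0, 0, 0)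

end REL

open REL in
theorem rel (h1 : T_BAS) (h2 : T_LS) (_h3 : T_RED) (h4 : T_H0) (h5 : T_FORM) : T_REL := by
  intro A k C C₀ _ _ _ _ _ _ π ι B ι₀ q₀ ρ hctx q q' hq hcq hcq' hX hY
  have fr : Frame ι q.mon B := h1 π ι B ι₀ q₀ ρ hctx q hq hcq
  have hqX : ρ q.X = q₀.X := by rw [← hq]; rfl
  have hqY : ρ q.Y = q₀.Y := by rw [← hq]; rfl
  have hinv : ∀ (u : Cˣ) (v : C₀ˣ), ρ u = v → ρ ((u⁻¹ : Cˣ) : C) = ((v⁻¹ : C₀ˣ) : C₀) := by
    intro u v h
    have : Units.map ρ.toMonoidHom u = v := Units.ext h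
    rw [← this, ← map_inv]
    rfl
  obtain ⟨z1, z2, z3, z4⟩ := hcq.z
  obtain ⟨x1, x2, x3, x4⟩ := hcq.x
  obtain ⟨y1, y2, y3, y4⟩ := hcq.y
  obtain ⟨z1', z2', z3', z4'⟩ := hcq'.z
  obtain ⟨x1', x2', x3', x4'⟩ := hcq'.x
  obtain ⟨y1', y2', y3', y4'⟩ := hcq'.y
  have cx : ((q.X⁻¹ : Cˣ) : C) * q.X = 1 := by simp
  have cy : ((q.Y⁻¹ : Cˣ) : C) * q.Y = 1 := by simp
  have cx' : ((q'.X⁻¹ : Cˣ) : C) * q'.X = 1 := by simp
  have cy' : ((q'.Y⁻¹ : Cˣ) : C) * q'.Y = 1 := by simp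
  have hg : ∀ i j : Fin 3, ((((![q.X * q'.X⁻¹, q.Y * q'.Y⁻¹, 1] : Fin 3 → Cˣ) i) *
      (((![q.X * q'.X⁻¹, q.Y * q'.Y⁻¹, 1] : Fin 3 → Cˣ) j))⁻¹ : Cˣ) : C) ∈ B {i, j} := by
    intro i j
    have hmi : B {i} ≤ B {i, j} :=
      hctx.mono {i} {i, j} (Finset.singleton_nonempty i)
        (by intro x hx; simp at hx ⊢; left; exact hx)
    have hmj : B {j} ≤ B {i, j} :=
      hctx.mono {j} {i, j} (Finset.singleton_nonempty j)
        (by intro x hx; simp at hx ⊢; right; exact hx)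
    fin_cases i <;> fin_cases j
    · simp
    · have h := (B {0, 1}).mul_mem (hmj y2) (hmi x2')
      have e : (q.X : C) * ((q.Y⁻¹ : Cˣ) : C) * ((q'.Y : C) * ((q'.X⁻¹ : Cˣ) : C))
          = ((((q.X * q'.X⁻¹) * (q.Y * q'.Y⁻¹)⁻¹ : Cˣ)) : C) := by
        simp only [mul_inv, inv_inv, Units.val_mul]
        ring
      rw [e] at h
      exact h
    · have h := (B {0, 2}).mul_mem (hmj z1) (hmi x1')
      simpa using h
    · have h := (B {1, 0}).mul_mem (hmj x2) (hmi y2')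
      have e : (q.Y : C) * ((q.X⁻¹ : Cˣ) : C) * ((q'.X : C) * ((q'.Y⁻¹ : Cˣ) : C))
          = ((((q.Y * q'.Y⁻¹) * (q.X * q'.X⁻¹)⁻¹ : Cˣ)) : C) := by
        simp only [mul_inv, inv_inv, Units.val_mul]
        ring
      rw [e] at h
      exact h
    · simp
    · have h := (B {1, 2}).mul_mem (hmj z2) (hmi y1')
      simpa using h
    · have h := (B {2, 0}).mul_mem (hmj x1) (hmi z1')
      simpa [mul_comm] using h
    · have h := (B {2, 1}).mul_mem (hmj y1) (hmi z2')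
      simpa [mul_comm] using h
    · simp
  have hmem : InSpan ι₀ q₀.mon (regd 0 ∅) (1 : C₀) := by
    rw [← Quad.mon_zero q₀]
    refine InSpan.of_mem ?_
    intro r _
    fin_cases r <;> simp [expo, dg]
  obtain ⟨lam, hlam, hl⟩ := h2 π ι B ι₀ q₀ ρ hctx 0
    ![q.X * q'.X⁻¹, q.Y * q'.Y⁻¹, 1] hg
    (by simp [hqX, hinv _ _ hX]) (by simp [hqY, hinv _ _ hY]) (by simp) 1 hmem
  have l0 : lam * q'.X * ((q.X⁻¹ : Cˣ) : C) ∈ B {0} := by
    have h := hl 0
    have e : lam * ((((![q.X * q'.X⁻¹, q.Y * q'.Y⁻¹, 1] : Fin 3 → Cˣ) 0)⁻¹ : Cˣ) : C)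
        = lam * q'.X * ((q.X⁻¹ : Cˣ) : C) := by
      simp only [Matrix.cons_val_zero, mul_inv, inv_inv, Units.val_mul]
      ring
    rw [e] at h
    exact h
  have l1 : lam * q'.Y * ((q.Y⁻¹ : Cˣ) : C) ∈ B {1} := by
    have h := hl 1
    have e : lam * ((((![q.X * q'.X⁻¹, q.Y * q'.Y⁻¹, 1] : Fin 3 → Cˣ) 1)⁻¹ : Cˣ) : C)
        = lam * q'.Y * ((q.Y⁻¹ : Cˣ) : C) := by
      simp only [Matrix.cons_val_one, Matrix.cons_val_zero, mul_inv, inv_inv, Units.val_mul]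
      ring
    rw [e] at h
    exact h
  have l2 : lam ∈ B {2} := by simpa using hl 2
  have H := fun (d : ℕ) (c : C) => h4 ι B q fr hcq d c
  have b1 : InSpan ι q.mon (regd ((1 : ℕ) : ℤ) ∅) lam := by
    refine (H 1 lam).mpr ⟨l2, ?_, ?_⟩
    · have h := (B {0}).mul_mem l0 x1'
      convert h using 1
      rw [pow_one]
      linear_combination (-(lam * ((q.X⁻¹ : Cˣ) : C))) * cx'
    · have h := (B {1}).mul_mem l1 y1'
      convert h using 1
      rw [pow_one]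
      linear_combination (-(lam * ((q.Y⁻¹ : Cˣ) : C))) * cy'
  have b2 : InSpan ι q.mon (regd ((1 : ℕ) : ℤ) ∅) (lam * q'.X) := by
    refine (H 1 _).mpr ⟨(B {2}).mul_mem l2 z1', ?_, ?_⟩
    · simpa using l0
    · have h := (B {1}).mul_mem l1 y2'
      convert h using 1
      rw [pow_one]
      linear_combination (-(lam * q'.X * ((q.Y⁻¹ : Cˣ) : C))) * cy'
  have b3 : InSpan ι q.mon (regd ((1 : ℕ) : ℤ) ∅) (lam * q'.Y) := by
    refine (H 1 _).mpr ⟨(B {2}).mul_mem l2 z2', ?_, ?_⟩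
    · have h := (B {0}).mul_mem l0 x2'
      convert h using 1
      rw [pow_one]
      linear_combination (-(lam * q'.Y * ((q.X⁻¹ : Cˣ) : C))) * cx'
    · simpa using l1
  have b4 : InSpan ι q.mon (regd ((2 : ℕ) : ℤ) ∅) (lam ^ 2 * q'.n) := by
    refine (H 2 _).mpr ⟨(B {2}).mul_mem ((B {2}).pow_mem l2 2) z3', ?_, ?_⟩
    · have h := (B {0}).mul_mem ((B {0}).pow_mem l0 2) x3'
      convert h using 1
      have e : (((q'.X⁻¹ : Cˣ) : C) * q'.X) ^ 2 = 1 := by rw [cx', one_pow]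
      linear_combination (-(lam ^ 2 * q'.n * ((q.X⁻¹ : Cˣ) : C) ^ 2)) * e
    · have h := (B {1}).mul_mem ((B {1}).pow_mem l1 2) y3'
      convert h using 1
      have e : (((q'.Y⁻¹ : Cˣ) : C) * q'.Y) ^ 2 = 1 := by rw [cy', one_pow]
      linear_combination (-(lam ^ 2 * q'.n * ((q.Y⁻¹ : Cˣ) : C) ^ 2)) * e
  have b5 : InSpan ι q.mon (regd ((5 : ℕ) : ℤ) ∅) (lam ^ 5 * q'.w) := by
    refine (H 5 _).mpr ⟨(B {2}).mul_mem ((B {2}).pow_mem l2 5) z4', ?_, ?_⟩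
    · have h := (B {0}).mul_mem ((B {0}).pow_mem l0 5) x4'
      convert h using 1
      have e : (((q'.X⁻¹ : Cˣ) : C) * q'.X) ^ 5 = 1 := by rw [cx', one_pow]
      linear_combination (-(lam ^ 5 * q'.w * ((q.X⁻¹ : Cˣ) : C) ^ 5)) * e
    · have h := (B {1}).mul_mem ((B {1}).pow_mem l1 5) y4'
      convert h using 1
      have e : (((q'.Y⁻¹ : Cˣ) : C) * q'.Y) ^ 5 = 1 := by rw [cy', one_pow]
      linear_combination (-(lam ^ 5 * q'.w * ((q.Y⁻¹ : Cˣ) : C) ^ 5)) * e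
  obtain ⟨lx, hlx⟩ := form1 h5 ι q b2
  obtain ⟨ly, hly⟩ := form1 h5 ι q b3
  obtain ⟨lz, hlz⟩ := form1 h5 ι q b1
  obtain ⟨u, s, hs, hu⟩ := form2 h5 ι q b4
  obtain ⟨u', r0, r1, hr0, hr1, hu'⟩ := form5 h5 ι q b5
  have inj0 := hctx.fr₀.injective
  refine ⟨![lx, ly, lz], lam, u, u', s, r0, r1, ⟨?_, ?_, ?_, hu, hu'⟩, hs, hr0, hr1, ?_, hlam⟩
  · simpa using hlx
  · simpa using hly
  · simpa using hlz
  · have ex : ι₀ (π (lx 0)) * q₀.X + ι₀ (π (lx 1)) * q₀.Y + ι₀ (π (lx 2))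
        = ι₀ 1 * q₀.X + ι₀ 0 * q₀.Y + ι₀ 0 := by
      have := congrArg ρ hlx
      simp only [map_mul, map_add, hctx.comm, hlam, hX, hqX, hqY] at this
      rw [← this]
      simp
    have ey : ι₀ (π (ly 0)) * q₀.X + ι₀ (π (ly 1)) * q₀.Y + ι₀ (π (ly 2))
        = ι₀ 0 * q₀.X + ι₀ 1 * q₀.Y + ι₀ 0 := by
      have := congrArg ρ hly
      simp only [map_mul, map_add, hctx.comm, hlam, hY, hqX, hqY] at this
      rw [← this]
      simp
    have ez : ι₀ (π (lz 0)) * q₀.X + ι₀ (π (lz 1)) * q₀.Y + ι₀ (π (lz 2))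
        = ι₀ 0 * q₀.X + ι₀ 0 * q₀.Y + ι₀ 1 := by
      have := congrArg ρ hlz
      simp only [map_mul, map_add, hctx.comm, hlam, hqX, hqY] at this
      rw [← this]
      simp
    obtain ⟨p1, p2, p3⟩ := lin_inj ι₀ q₀ inj0 ex
    obtain ⟨p4, p5, p6⟩ := lin_inj ι₀ q₀ inj0 ey
    obtain ⟨p7, p8, p9⟩ := lin_inj ι₀ q₀ inj0 ez
    intro i j
    fin_cases i <;> fin_cases j <;> simp [p1, p2, p3, p4, p5, p6, p7, p8, p9]

end Pool.Agent.H1.CM
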